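import Mathlib

/-!
MP_81f70c_co, Q1: in a nontrivial projective rectangle, the section of a plane by a special line is
also a section of another plane.
-/

namespace Pool.Agent.Results.MP_81f70c_co.SharedSections

/-- Three points of the quadruple `f` are never on a common member of `L`. -/
def General {P : Type} (L : Set (Set P)) (f : Fin 4 → P) : Prop :=
  Function.Injective f ∧ ∀ i j k, i ≠ j → i ≠ k → j ≠ k →
    ¬ ∃ l ∈ L, f i ∈ l ∧ f j ∈ l ∧ f k ∈ l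

/-- A projective rectangle: points `P`, lines `L` (as sets of points), distinguished point `D`.
Lines through `D` are special, the others are ordinary. -/
structure ProjRect (P : Type) where
  /-- the lines -/
  L : Set (Set P)
  /-- the distinguished point -/
  D : P
  A1 : ∀ p q : P, p ≠ q → ∃! l, l ∈ L ∧ p ∈ l ∧ q ∈ l
  A2 : ∃ f : Fin 4 → P, General L f
  A3 : ∀ l ∈ L, ∃ x ∈ l, ∃ y ∈ l, ∃ z ∈ l, x ≠ y ∧ x ≠ z ∧ y ≠ z
  A5 : ∀ s ∈ L, D ∈ s → ∀ l ∈ L, l ≠ s → ∃! x, x ∈ s ∧ x ∈ l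
  A6 : ∀ l₁ ∈ L, ∀ l₂ ∈ L, D ∉ l₁ → D ∉ l₂ → l₁ ≠ l₂ → (∃ x, x ∈ l₁ ∧ x ∈ l₂) →
    ∀ l₃ ∈ L, ∀ l₄ ∈ L, l₃ ≠ l₄ → ∀ p q r t : P, p ∈ l₁ → p ∈ l₃ → q ∈ l₂ → q ∈ l₃ →
      r ∈ l₁ → r ∈ l₄ → t ∈ l₂ → t ∈ l₄ → p ≠ q → p ≠ r → p ≠ t → q ≠ r → q ≠ t → r ≠ t →
      ∃ x, x ∈ l₃ ∧ x ∈ l₄

/-- A set `S` of points with a family `Ls` of subsets as lines is a projective plane. -/
def IsProjPlane {P : Type} (S : Set P) (Ls : Set (Set P)) : Prop :=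
  (∀ p ∈ S, ∀ q ∈ S, p ≠ q → ∃! t, t ∈ Ls ∧ p ∈ t ∧ q ∈ t) ∧
  (∀ t ∈ Ls, ∀ t' ∈ Ls, t ≠ t' → ∃! x, x ∈ t ∧ x ∈ t') ∧
  (∃ f : Fin 4 → P, (∀ i, f i ∈ S) ∧ General Ls f)

variable {P : Type}

/-- The lines of a set `S`: the sets `l ∩ S` with at least two points. -/
def linesOf (R : ProjRect P) (S : Set P) : Set (Set P) :=
  {t | ∃ l ∈ R.L, t = l ∩ S ∧ ∃ x ∈ t, ∃ y ∈ t, x ≠ y}

/-- Projective subplanes. -/
def IsSubplane (R : ProjRect P) (S : Set P) : Prop := IsProjPlane S (linesOf R S)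

/-- Planes are the maximal projective subplanes. -/
def IsPlane (R : ProjRect P) (S : Set P) : Prop :=
  IsSubplane R S ∧ ∀ S', IsSubplane R S' → S ⊆ S' → S' = S

/-- A projective rectangle is nontrivial if it is not a projective plane. -/
def Nontriv (R : ProjRect P) : Prop := ¬ IsProjPlane Set.univ R.L

/-! ### Theory -/

section theory

variable (R : ProjRect P)

/-- ordinary lines -/
def Ord (l : Set P) : Prop := l ∈ R.L ∧ R.D ∉ l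

/-- on a common special line -/
def F (p q : P) : Prop := ∃ s ∈ R.L, R.D ∈ s ∧ p ∈ s ∧ q ∈ s

variable {R}

lemma join {p q : P} (h : p ≠ q) : ∃ l ∈ R.L, p ∈ l ∧ q ∈ l := by
  obtain ⟨l, ⟨h1, h2⟩, _⟩ := R.A1 p q h
  exact ⟨l, h1, h2⟩

lemma uniq {l m : Set P} (hl : l ∈ R.L) (hm : m ∈ R.L) {p q : P} (h : p ≠ q) (h1 : p ∈ l)
    (h2 : q ∈ l) (h3 : p ∈ m) (h4 : q ∈ m) : l = m :=
  (R.A1 p q h).unique ⟨hl, h1, h2⟩ ⟨hm, h3, h4⟩

lemma exists_ne (R : ProjRect P) (p : P) : ∃ q, q ≠ p := by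
  obtain ⟨f, hf, _⟩ := R.A2
  by_cases h : f 0 = p
  · exact ⟨f 1, fun h1 => absurd (hf (h.trans h1.symm)) (by decide)⟩
  · exact ⟨f 0, h⟩

lemma F_D (p : P) : F R R.D p := by
  by_cases h : R.D = p
  · obtain ⟨q, hq⟩ := exists_ne R p
    obtain ⟨l, hl, h1, h2⟩ := join (R := R) hq
    rw [← h] at h2 ⊢
    exact ⟨l, hl, h2, h2, h2⟩
  · obtain ⟨l, hl, h1, h2⟩ := join (R := R) h
    exact ⟨l, hl, h1, h1, h2⟩

lemma F_refl (p : P) : F R p p := by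
  obtain ⟨s, h1, h2, _, h3⟩ := F_D (R := R) p
  exact ⟨s, h1, h2, h3, h3⟩

lemma F_symm {p q : P} (h : F R p q) : F R q p := by
  obtain ⟨s, h1, h2, h3, h4⟩ := h
  exact ⟨s, h1, h2, h4, h3⟩

lemma F_trans {p q r : P} (hq : q ≠ R.D) (h : F R p q) (h' : F R q r) : F R p r := by
  obtain ⟨s, h1, h2, h3, h4⟩ := h
  obtain ⟨s', h1', h2', h3', h4'⟩ := h'
  have : s = s' := uniq h1 h1' hq h4 h2 h3' h2'
  subst this
  exact ⟨s, h1, h2, h3, h4'⟩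

lemma F_eq {l : Set P} (hl : Ord R l) {p q : P} (hp : p ∈ l) (hq : q ∈ l) (h : F R p q) :
    p = q := by
  by_contra hne
  obtain ⟨s, h1, h2, h3, h4⟩ := h
  have := uniq hl.1 h1 hne hp hq h3 h4
  exact hl.2 (this ▸ h2)

lemma ne_D {l : Set P} (hl : Ord R l) {p : P} (hp : p ∈ l) : p ≠ R.D := by
  rintro rfl
  exact hl.2 hp

lemma F_mem {s : Set P} (hs : s ∈ R.L) (hD : R.D ∈ s) {p q : P} (hp : p ∈ s) (hp0 : p ≠ R.D)
    (h : F R p q) : q ∈ s := by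
  obtain ⟨s', h1, h2, h3, h4⟩ := h
  have : s = s' := uniq hs h1 hp0 hp hD h3 h2
  rw [this]
  exact h4

lemma join_ord {p q : P} (h : ¬ F R p q) : ∃ l, Ord R l ∧ p ∈ l ∧ q ∈ l := by
  have hne : p ≠ q := by
    rintro rfl
    exact h (F_refl p)
  obtain ⟨l, hl, h1, h2⟩ := join (R := R) hne
  exact ⟨l, ⟨hl, fun hD => h ⟨l, hl, hD, h1, h2⟩⟩, h1, h2⟩

/-- The point of an ordinary line on the special line of a point. -/
lemma foot {l : Set P} (hl : Ord R l) (z : P) : ∃ x ∈ l, F R z x := by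
  obtain ⟨s, h1, h2, _, h3⟩ := F_D (R := R) z
  obtain ⟨x, ⟨h4, h5⟩, _⟩ := R.A5 s h1 h2 l hl.1 (by
    rintro rfl
    exact hl.2 h2)
  exact ⟨x, h5, s, h1, h2, h3, h4⟩

/-- The point of an ordinary line on a special line. -/
lemma foot' {l s : Set P} (hl : Ord R l) (hs : s ∈ R.L) (hD : R.D ∈ s) : ∃ x ∈ l, x ∈ s := by
  obtain ⟨x, ⟨h4, h5⟩, _⟩ := R.A5 s hs hD l hl.1 (by
    rintro rfl
    exact hl.2 hD)
  exact ⟨x, h5, h4⟩

lemma third {l : Set P} (hl : l ∈ R.L) (u v : P) : ∃ w ∈ l, w ≠ u ∧ w ≠ v := by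
  obtain ⟨x, hx, y, hy, z, hz, h1, h2, h3⟩ := R.A3 l hl
  by_cases hxu : x = u
  · by_cases hyv : y = v
    · exact ⟨z, hz, fun h => h2 (hxu.trans h.symm), fun h => h3 (hyv.trans h.symm)⟩
    · exact ⟨y, hy, fun h => h1 (hxu.trans h.symm), hyv⟩
  · by_cases hxv : x = v
    · by_cases hyu : y = u
      · exact ⟨z, hz, fun h => h3 (hyu.trans h.symm), fun h => h2 (hxv.trans h.symm)⟩
      · exact ⟨y, hy, hyu, fun h => h1 (hxv.trans h.symm)⟩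
    · exact ⟨x, hx, hxu, hxv⟩

lemma exists_off {l : Set P} (hl : Ord R l) {u v : P} (hu : u ≠ R.D) (hv : v ≠ R.D) :
    ∃ w ∈ l, ¬ F R w u ∧ ¬ F R w v := by
  obtain ⟨u', hu', hu1⟩ := foot hl u
  obtain ⟨v', hv', hv1⟩ := foot hl v
  obtain ⟨w, hw, h1, h2⟩ := third hl.1 u' v'
  exact ⟨w, hw, fun h => h1 (F_eq hl hw hu' (F_trans hu h hu1)),
    fun h => h2 (F_eq hl hw hv' (F_trans hv h hv1))⟩

variable (R) in
/-- The plane spanned by two ordinary lines. -/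
def pl (a b : Set P) : Set P :=
  {z | z = R.D ∨ z ∈ a ∨ z ∈ b ∨ ∃ c, Ord R c ∧ z ∈ c ∧ ∃ x y, x ∈ a ∧ x ∈ c ∧ y ∈ b ∧ y ∈ c ∧
    x ≠ y}

lemma pl_comm (a b : Set P) : pl R a b = pl R b a := by
  have h : ∀ a b : Set P, pl R a b ⊆ pl R b a := by
    intro a b z hz
    rcases hz with h | h | h | ⟨c, hc, hzc, x, y, h1, h2, h3, h4, h5⟩
    · exact Or.inl h
    · exact Or.inr (Or.inr (Or.inl h))
    · exact Or.inr (Or.inl h)
    · exact Or.inr (Or.inr (Or.inr ⟨c, hc, hzc, y, x, h3, h4, h1, h2, h5.symm⟩))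
  exact Set.Subset.antisymm (h a b) (h b a)

section two

variable {a b : Set P} (ha : Ord R a) (hb : Ord R b) (hab : a ≠ b) {O : P} (hOa : O ∈ a)
  (hOb : O ∈ b)

include ha hb hab hOa hOb

lemma meet_eq {x : P} (h1 : x ∈ a) (h2 : x ∈ b) : x = O := by
  by_contra h
  exact hab (uniq ha.1 hb.1 h h1 hOa h2 hOb)

omit hab in
/-- Data of a point of the plane outside the two lines. -/
lemma data {z : P} (hz : z ∈ pl R a b) (hzD : z ≠ R.D) (hza : z ∉ a) (hzb : z ∉ b) :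
    ∃ c, Ord R c ∧ z ∈ c ∧ ∃ x y, x ∈ a ∧ x ∈ c ∧ y ∈ b ∧ y ∈ c ∧ x ≠ y ∧ x ≠ O ∧ y ≠ O := by
  rcases hz with h | h | h | ⟨c, hc, hzc, x, y, h1, h2, h3, h4, h5⟩
  · exact absurd h hzD
  · exact absurd h hza
  · exact absurd h hzb
  · refine ⟨c, hc, hzc, x, y, h1, h2, h3, h4, h5, ?_, ?_⟩
    · rintro rfl
      have := uniq hc.1 hb.1 h5 h2 h4 hOb h3
      exact hzb (this ▸ hzc)
    · rintro rfl
      have := uniq hc.1 ha.1 h5 h2 h4 h1 hOa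
      exact hza (this ▸ hzc)

/-- Claim 1. -/
lemma claim1 {z : P} (hz : z ∈ pl R a b) (hzD : z ≠ R.D) (hza : z ∉ a) (hzb : z ∉ b) {x : P}
    (hx : x ∈ a) {l : Set P} (hl : l ∈ R.L) (hzl : z ∈ l) (hxl : x ∈ l) :
    ∃ y ∈ b, y ∈ l := by
  obtain ⟨c, hc, hzc, x0, y0, h1, h2, h3, h4, h5, h6, h7⟩ := data ha hb hOa hOb hz hzD hza hzb
  by_cases hxO : x = O
  · exact ⟨x, hxO ▸ hOb, hxl⟩
  by_cases hx0 : x = x0
  · have hzx : z ≠ x := by rintro rfl; exact hza hx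
    have : l = c := uniq hl hc.1 hzx hzl hxl hzc (hx0 ▸ h2)
    exact ⟨y0, h3, this ▸ h4⟩
  have hac : a ≠ c := by
    rintro rfl
    exact hza hzc
  have hOz : O ≠ z := by rintro rfl; exact hza hOa
  have hy0z : y0 ≠ z := by rintro rfl; exact hzb h3
  have hy0x : y0 ≠ x := by
    rintro rfl
    exact h7 (meet_eq ha hb hab hOa hOb hx h3)
  have hxz : x ≠ z := by rintro rfl; exact hza hx
  have hbl : b ≠ l := by
    rintro rfl
    exact hzb hzl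
  obtain ⟨y, hy1, hy2⟩ := R.A6 a ha.1 c hc.1 ha.2 hc.2 hac ⟨x0, h1, h2⟩ b hb.1 l hl hbl O y0 x z
    hOa hOb h4 h3 hx hxl hzc hzl (Ne.symm h7) (Ne.symm hxO) hOz hy0x hy0z hxz
  exact ⟨y, hy1, hy2⟩

/-- The plane contains the ordinary lines through `O` and a point of the plane. -/
lemma claim2O {z : P} (hz : z ∈ pl R a b) (hzD : z ≠ R.D) (hza : z ∉ a) (hzb : z ∉ b)
    {d : Set P} (hd : Ord R d) (hzd : z ∈ d) (hOd : O ∈ d) : d ⊆ pl R a b := by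
  intro w hw
  obtain ⟨c, hc, hzc, x0, y0, h1, h2, h3, h4, h5, h6, h7⟩ := data ha hb hOa hOb hz hzD hza hzb
  by_cases hwO : w = O
  · rw [hwO]; exact Or.inr (Or.inl hOa)
  by_cases hwz : w = z
  · rw [hwz]; exact hz
  have hda : d ≠ a := by rintro rfl; exact hza hzd
  have hdb : d ≠ b := by rintro rfl; exact hzb hzd
  have hwa : w ∉ a := fun h => hda (uniq hd.1 ha.1 hwO hw hOd h hOa)
  have hwb : w ∉ b := fun h => hdb (uniq hd.1 hb.1 hwO hw hOd h hOb)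
  have hOz : O ≠ z := by rintro rfl; exact hza hOa
  have hOc : O ∉ c := by
    intro hOc
    have : c = a := uniq hc.1 ha.1 h6 h2 hOc h1 hOa
    exact hza (this ▸ hzc)
  have hdc : d ≠ c := by rintro rfl; exact hOc hOd
  have hwc : w ∉ c := fun h => hdc (uniq hd.1 hc.1 hwz hw hzd h hzc)
  have hwx : w ≠ x0 := by rintro rfl; exact hwa h1
  have hwy : w ≠ y0 := by rintro rfl; exact hwb h3
  have hzx : z ≠ x0 := by rintro rfl; exact hza h1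
  have hzy : z ≠ y0 := by rintro rfl; exact hzb h3
  by_cases hF : F R w y0
  · -- use `x0`
    have hF' : ¬ F R w x0 := by
      intro h
      have hwD := ne_D hd hw
      exact h5 (F_eq hc h2 h4 (F_trans hwD (F_symm h) hF))
    obtain ⟨l, hl, hwl, hxl⟩ := join_ord hF'
    have hbl : b ≠ l := by rintro rfl; exact hwb hwl
    obtain ⟨y, hy1, hy2⟩ := R.A6 d hd.1 c hc.1 hd.2 hc.2 hdc ⟨z, hzd, hzc⟩ b hb.1 l hl.1 hbl O y0
      w x0 hOd hOb h4 h3 hw hwl h2 hxl (Ne.symm h7) (Ne.symm hwO) (Ne.symm h6) (Ne.symm hwy)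
      (Ne.symm h5) hwx
    refine Or.inr (Or.inr (Or.inr ⟨l, hl, hwl, x0, y, h1, hxl, hy1, hy2, ?_⟩))
    rintro rfl
    exact h6 (meet_eq ha hb hab hOa hOb h1 hy1)
  · obtain ⟨l, hl, hwl, hyl⟩ := join_ord hF
    have hal : a ≠ l := by rintro rfl; exact hwa hwl
    obtain ⟨x, hx1, hx2⟩ := R.A6 d hd.1 c hc.1 hd.2 hc.2 hdc ⟨z, hzd, hzc⟩ a ha.1 l hl.1 hal O x0
      w y0 hOd hOa h2 h1 hw hwl h4 hyl (Ne.symm h6) (Ne.symm hwO) (Ne.symm h7) (Ne.symm hwx)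
      h5 hwy
    refine Or.inr (Or.inr (Or.inr ⟨l, hl, hwl, x, y0, hx1, hx2, h3, hyl, ?_⟩))
    rintro rfl
    exact h7 (meet_eq ha hb hab hOa hOb hx1 h3)

/-- Two points outside `a` and `b`: the joining line meets `a`. -/
lemma claim2a {z w : P} (hz : z ∈ pl R a b) (hzD : z ≠ R.D) (hza : z ∉ a) (hzb : z ∉ b)
    (hw : w ∈ pl R a b) (hwD : w ≠ R.D) (hwa : w ∉ a) (hwb : w ∉ b)
    (hF : ¬ F R z w) {d : Set P} (hd : Ord R d) (hzd : z ∈ d) (hwd : w ∈ d) :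
    ∃ x ∈ a, x ∈ d := by
  -- a point of `b` off the three special lines
  obtain ⟨y, hyb, hyO, hyz, hyw⟩ : ∃ y ∈ b, y ≠ O ∧ ¬ F R y z ∧ ¬ F R y w := by
    by_contra hno
    push Not at hno
    obtain ⟨c, hc, hzc, x0, y0, h1, h2, h3, h4, h5, h6, h7⟩ :=
      data ha hb hOa hOb hz hzD hza hzb
    obtain ⟨x1, hx1, hx1F⟩ := foot hb x0
    have hx0D := ne_D ha h1
    have e1 : F R x1 w := by
      apply hno x1 hx1
      · rintro rfl
        exact h6 (F_eq ha h1 hOa hx1F)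
      · intro h
        have h8 : F R x0 z := F_trans (ne_D hb hx1) hx1F h
        have := F_eq hc h2 hzc h8
        rw [this] at h1
        exact hza h1
    have e2 : F R y0 w := by
      apply hno y0 h3 h7
      intro h
      have := F_eq hc h4 hzc h
      rw [this] at h3
      exact hzb h3
    have e3 : F R x0 y0 := F_trans hwD (F_trans (ne_D hb hx1) hx1F e1) (F_symm e2)
    exact h5 (F_eq hc h2 h4 e3)
  obtain ⟨l1, hl1, h1y, h1z⟩ := join_ord hyz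
  obtain ⟨l2, hl2, h2y, h2w⟩ := join_ord hyw
  have hba := pl_comm (R := R) a b
  obtain ⟨x1, hx1, hx1l⟩ := claim1 hb ha (Ne.symm hab) hOb hOa (hba ▸ hz) hzD hzb hza hyb hl1.1
    h1z h1y
  obtain ⟨x2, hx2, hx2l⟩ := claim1 hb ha (Ne.symm hab) hOb hOa (hba ▸ hw) hwD hwb hwa hyb hl2.1
    h2w h2y
  have hzw : z ≠ w := by rintro rfl; exact hF (F_refl _)
  by_cases hll : l1 = l2
  · have : l1 = d := uniq hl1.1 hd.1 hzw h1z (hll ▸ h2w) hzd hwd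
    exact ⟨x1, hx1, this ▸ hx1l⟩
  have hx12 : x1 ≠ x2 := by
    rintro rfl
    have hxy : x1 ≠ y := by
      rintro rfl
      exact hyO (meet_eq ha hb hab hOa hOb hx1 hyb)
    exact hll (uniq hl1.1 hl2.1 hxy hx1l h1y hx2l h2y)
  have had : a ≠ d := by rintro rfl; exact hza hzd
  obtain ⟨x, hx, hx'⟩ := R.A6 l1 hl1.1 l2 hl2.1 hl1.2 hl2.2 hll ⟨y, h1y, h2y⟩ a ha.1 d hd.1 had
    x1 x2 z w hx1l hx1 hx2l hx2 h1z hzd h2w hwd hx12 (by rintro rfl; exact hza hx1)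
    (by rintro rfl; exact hwa hx1) (by rintro rfl; exact hza hx2) (by rintro rfl; exact hwa hx2)
    hzw
  exact ⟨x, hx, hx'⟩

/-- An ordinary line with two points of the plane meets `a` and `b`, and is in the plane. -/
lemma claim2 {z w : P} (hz : z ∈ pl R a b) (hw : w ∈ pl R a b) (hF : ¬ F R z w) {d : Set P}
    (hd : Ord R d) (hzd : z ∈ d) (hwd : w ∈ d) :
    (∃ x ∈ a, x ∈ d) ∧ (∃ y ∈ b, y ∈ d) ∧ d ⊆ pl R a b := by
  have hzw : z ≠ w := by rintro rfl; exact hF (F_refl _)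
  have hba := pl_comm (R := R) a b
  have hzD := ne_D hd hzd
  have hwD := ne_D hd hwd
  have hmeet : (∃ x ∈ a, x ∈ d) ∧ (∃ y ∈ b, y ∈ d) := by
    by_cases hza : z ∈ a
    · refine ⟨⟨z, hza, hzd⟩, ?_⟩
      by_cases hwb : w ∈ b
      · exact ⟨w, hwb, hwd⟩
      by_cases hwa : w ∈ a
      · have : d = a := uniq hd.1 ha.1 hzw hzd hwd hza hwa
        exact ⟨O, hOb, this ▸ hOa⟩
      exact claim1 ha hb hab hOa hOb hw hwD hwa hwb hza hd.1 hwd hzd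
    by_cases hzb : z ∈ b
    · refine ⟨?_, ⟨z, hzb, hzd⟩⟩
      by_cases hwa : w ∈ a
      · exact ⟨w, hwa, hwd⟩
      by_cases hwb : w ∈ b
      · have : d = b := uniq hd.1 hb.1 hzw hzd hwd hzb hwb
        exact ⟨O, hOa, this ▸ hOb⟩
      exact claim1 hb ha (Ne.symm hab) hOb hOa (hba ▸ hw) hwD hwb hwa hzb hd.1 hwd hzd
    by_cases hwa : w ∈ a
    · exact ⟨⟨w, hwa, hwd⟩, claim1 ha hb hab hOa hOb hz hzD hza hzb hwa hd.1 hzd hwd⟩
    by_cases hwb : w ∈ b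
    · exact ⟨claim1 hb ha (Ne.symm hab) hOb hOa (hba ▸ hz) hzD hzb hza hwb hd.1 hzd hwd,
        ⟨w, hwb, hwd⟩⟩
    exact ⟨claim2a ha hb hab hOa hOb hz hzD hza hzb hw hwD hwa hwb hF hd hzd hwd,
      claim2a hb ha (Ne.symm hab) hOb hOa (hba ▸ hz) hzD hzb hza (hba ▸ hw) hwD hwb hwa hF hd hzd
        hwd⟩
  refine ⟨hmeet.1, hmeet.2, ?_⟩
  obtain ⟨⟨x, hx, hxd⟩, ⟨y, hy, hyd⟩⟩ := hmeet
  by_cases hxy : x = y
  · have hxO : x = O := meet_eq ha hb hab hOa hOb hx (hxy ▸ hy)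
    rw [hxO] at hxd
    by_cases hda : d = a
    · intro t ht
      exact Or.inr (Or.inl (hda ▸ ht))
    by_cases hdb : d = b
    · intro t ht
      exact Or.inr (Or.inr (Or.inl (hdb ▸ ht)))
    -- one of `z`, `w` is not `O`
    have key : ∀ z ∈ pl R a b, z ∈ d → z ≠ O → d ⊆ pl R a b := by
      intro z hz hzd hzO
      exact claim2O ha hb hab hOa hOb hz (ne_D hd hzd)
        (fun h => hda (uniq hd.1 ha.1 hzO hzd hxd h hOa))
        (fun h => hdb (uniq hd.1 hb.1 hzO hzd hxd h hOb)) hd hzd hxd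
    by_cases hzO : z = O
    · exact key w hw hwd (fun h => hzw (hzO.trans h.symm))
    · exact key z hz hzd hzO
  · intro t ht
    exact Or.inr (Or.inr (Or.inr ⟨d, hd, ht, x, y, hx, hxd, hy, hyd, hxy⟩))

/-- A line through `O` and a line not through `O` meet. -/
lemma claim3O {d e : Set P} (hd : Ord R d) (he : Ord R e) (hdp : d ⊆ pl R a b)
    (hOd : O ∈ d) (hda : d ≠ a) (hdb : d ≠ b) {x y : P} (hx : x ∈ a) (hxe : x ∈ e)
    (hy : y ∈ b) (hye : y ∈ e) (hxy : x ≠ y) (hxO : x ≠ O) (hyO : y ≠ O) : ∃ t ∈ d, t ∈ e := by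
  obtain ⟨z, hzd, hzO, hzy⟩ := exists_off hd (ne_D ha hOa) (ne_D hb hy)
  have hzO' : z ≠ O := by rintro rfl; exact hzO (F_refl _)
  have hza : z ∉ a := fun h => hda (uniq hd.1 ha.1 hzO' hzd hOd h hOa)
  have hzb : z ∉ b := fun h => hdb (uniq hd.1 hb.1 hzO' hzd hOd h hOb)
  obtain ⟨l, hl, hzl, hyl⟩ := join_ord hzy
  have hba := pl_comm (R := R) a b
  obtain ⟨u, hu, hul⟩ := claim1 hb ha (Ne.symm hab) hOb hOa (hba ▸ hdp hzd) (ne_D hd hzd) hzb hza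
    hy hl.1 hzl hyl
  have hde : d ≠ e := by
    rintro rfl
    exact hda (uniq hd.1 ha.1 hxO hxe hOd hx hOa)
  obtain ⟨t, ht1, ht2⟩ := R.A6 a ha.1 l hl.1 ha.2 hl.2 (by rintro rfl; exact hza hzl) ⟨u, hu, hul⟩
    d hd.1 e he.1 hde O z x y hOa hOd hzl hzd hx hxe hyl hye (Ne.symm hzO') (Ne.symm hxO)
    (Ne.symm hyO) (by rintro rfl; exact hza hx) (by rintro rfl; exact hzb hy) hxy
  exact ⟨t, ht1, ht2⟩

/-- Two ordinary lines of the plane meet. -/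
lemma claim3 {d e : Set P} (hd : Ord R d) (he : Ord R e) (hdp : d ⊆ pl R a b)
    (hep : e ⊆ pl R a b) : ∃ t ∈ d, t ∈ e := by
  have two : ∀ d, Ord R d → ∃ z ∈ d, ∃ w ∈ d, ¬ F R z w := by
    intro d hd
    obtain ⟨z, hz, -, -⟩ := third hd.1 O O
    obtain ⟨w, hw, hwz, -⟩ := third hd.1 z z
    exact ⟨z, hz, w, hw, fun h => hwz (F_eq hd hz hw h).symm⟩
  have meets : ∀ d, Ord R d → d ⊆ pl R a b → (∃ x ∈ a, x ∈ d) ∧ (∃ y ∈ b, y ∈ d) := by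
    intro d hd hdp
    obtain ⟨z, hz, w, hw, hF⟩ := two d hd
    have := claim2 ha hb hab hOa hOb (hdp hz) (hdp hw) hF hd hz hw
    exact ⟨this.1, this.2.1⟩
  obtain ⟨⟨x, hx, hxd⟩, ⟨y, hy, hyd⟩⟩ := meets d hd hdp
  obtain ⟨⟨x', hx', hxe⟩, ⟨y', hy', hye⟩⟩ := meets e he hep
  have hmO : ∀ {x : P}, x ∈ a → x ∈ b → x = O := fun h1 h2 => meet_eq ha hb hab hOa hOb h1 h2
  by_cases hde : d = e
  · exact ⟨x, hxd, hde ▸ hxd⟩
  by_cases hda : d = a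
  · exact ⟨x', hda ▸ hx', hxe⟩
  by_cases hdb : d = b
  · exact ⟨y', hdb ▸ hy', hye⟩
  by_cases hea : e = a
  · exact ⟨x, hxd, hea ▸ hx⟩
  by_cases heb : e = b
  · exact ⟨y, hyd, heb ▸ hy⟩
  by_cases hOd : O ∈ d
  · by_cases hOe : O ∈ e
    · exact ⟨O, hOd, hOe⟩
    have h1 : x' ≠ O := by rintro rfl; exact hOe hxe
    have h2 : y' ≠ O := by rintro rfl; exact hOe hye
    have h3 : x' ≠ y' := by rintro rfl; exact h1 (hmO hx' hy')
    exact claim3O ha hb hab hOa hOb hd he hdp hOd hda hdb hx' hxe hy' hye h3 h1 h2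
  have h1 : x ≠ O := by rintro rfl; exact hOd hxd
  have h2 : y ≠ O := by rintro rfl; exact hOd hyd
  have h3 : x ≠ y := by rintro rfl; exact h1 (hmO hx hy)
  by_cases hOe : O ∈ e
  · obtain ⟨t, ht1, ht2⟩ := claim3O ha hb hab hOa hOb he hd hep hOe hea heb hx hxd hy hyd h3 h1 h2
    exact ⟨t, ht2, ht1⟩
  have h1' : x' ≠ O := by rintro rfl; exact hOe hxe
  have h2' : y' ≠ O := by rintro rfl; exact hOe hye
  have h3' : x' ≠ y' := by rintro rfl; exact h1' (hmO hx' hy')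
  by_cases hxx : x = x'
  · exact ⟨x, hxd, hxx ▸ hxe⟩
  by_cases hyy : y = y'
  · exact ⟨y, hyd, hyy ▸ hye⟩
  obtain ⟨t, ht1, ht2⟩ := R.A6 a ha.1 b hb.1 ha.2 hb.2 hab ⟨O, hOa, hOb⟩ d hd.1 e he.1 hde x y x' y'
    hx hxd hy hyd hx' hxe hy' hye h3 hxx (by rintro rfl; exact h1 (hmO hx hy'))
    (by rintro rfl; exact h2 (hmO hx' hy)) hyy h3'
  exact ⟨t, ht1, ht2⟩

end two

variable (R) in
/-- The properties of planes. -/
structure Good (S : Set P) : Prop where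
  D_mem : R.D ∈ S
  closed : ∀ z ∈ S, ∀ w ∈ S, ¬ F R z w → ∀ d, Ord R d → z ∈ d → w ∈ d → d ⊆ S
  meet : ∀ d e, Ord R d → Ord R e → d ⊆ S → e ⊆ S → ∃ t ∈ d, t ∈ e
  base : ∃ a b O, Ord R a ∧ Ord R b ∧ a ≠ b ∧ O ∈ a ∧ O ∈ b ∧ a ⊆ S ∧ b ⊆ S

lemma good_pl {a b : Set P} {O : P} (ha : Ord R a) (hb : Ord R b) (hab : a ≠ b)
    (hOa : O ∈ a) (hOb : O ∈ b) : Good R (pl R a b) where
  D_mem := Or.inl rfl
  closed := fun _ hz _ hw hF _ hd hzd hwd =>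
    (claim2 ha hb hab hOa hOb hz hw hF hd hzd hwd).2.2
  meet := fun _ _ hd he hdp hep => claim3 ha hb hab hOa hOb hd he hdp hep
  base := ⟨a, b, O, ha, hb, hab, hOa, hOb, fun _ ht => Or.inr (Or.inl ht),
    fun _ ht => Or.inr (Or.inr (Or.inl ht))⟩

/-- A point of a good set is on an ordinary line joining points of `a` and `b`. -/
lemma good_sub {S T : Set P} (hS : Good R S) (hT : Good R T) {a b : Set P} {O : P}
    (ha : Ord R a) (hb : Ord R b) (hab : a ≠ b) (hOa : O ∈ a) (hOb : O ∈ b) (haS : a ⊆ S)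
    (hbS : b ⊆ S) (haT : a ⊆ T) (hbT : b ⊆ T) : S ⊆ T := by
  intro z hz
  by_cases hzD : z = R.D
  · rw [hzD]; exact hT.D_mem
  by_cases hza : z ∈ a
  · exact haT hza
  obtain ⟨x, hxa, hxz, hxO⟩ := exists_off ha hzD (ne_D ha hOa)
  obtain ⟨c, hc, hxc, hzc⟩ := join_ord hxz
  have hcS := hS.closed x (haS hxa) z hz hxz c hc hxc hzc
  obtain ⟨y, hyc, hyb⟩ := hS.meet c b hc hb hcS hbS
  have hxy : x ≠ y := by
    rintro rfl
    have := meet_eq ha hb hab hOa hOb hxa hyb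
    rw [this] at hxO
    exact hxO (F_refl _)
  exact hT.closed x (haT hxa) y (hbT hyb) (fun h => hxy (F_eq hc hxc hyc h)) c hc hxc hyc hzc

lemma good_eq {S T : Set P} (hS : Good R S) (hT : Good R T) {a b : Set P} {O : P}
    (ha : Ord R a) (hb : Ord R b) (hab : a ≠ b) (hOa : O ∈ a) (hOb : O ∈ b) (haS : a ⊆ S)
    (hbS : b ⊆ S) (haT : a ⊆ T) (hbT : b ⊆ T) : S = T :=
  Set.Subset.antisymm (good_sub hS hT ha hb hab hOa hOb haS hbS haT hbT)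
    (good_sub hT hS ha hb hab hOa hOb haT hbT haS hbS)

/-- An ordinary line with two points in a good set is contained in it. -/
lemma Good.line {S : Set P} (hS : Good R S) {d : Set P} (hd : Ord R d) {z w : P} (hz : z ∈ S)
    (hw : w ∈ S) (hzd : z ∈ d) (hwd : w ∈ d) (hzw : z ≠ w) : d ⊆ S :=
  hS.closed z hz w hw (fun h => hzw (F_eq hd hzd hwd h)) d hd hzd hwd

lemma good_subplane {S : Set P} (hS : Good R S) : IsSubplane R S := by
  refine ⟨?_, ?_, ?_⟩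
  · intro p hp q hq hpq
    obtain ⟨l, hl, hpl, hql⟩ := join (R := R) hpq
    refine ⟨l ∩ S, ⟨⟨l, hl, rfl, p, ⟨hpl, hp⟩, q, ⟨hql, hq⟩, hpq⟩, ⟨hpl, hp⟩, ⟨hql, hq⟩⟩, ?_⟩
    rintro t ⟨⟨l', hl', rfl, -⟩, ⟨hp1, -⟩, ⟨hq1, -⟩⟩
    rw [uniq hl' hl hpq hp1 hq1 hpl hql]
  · rintro t ⟨l, hl, rfl, u, hu, v, hv, huv⟩ t' ⟨l', hl', rfl, u', hu', v', hv', huv'⟩ hne
    have hll : l ≠ l' := by rintro rfl; exact hne rfl
    have hex : ∃ x, x ∈ l ∧ x ∈ l' ∧ x ∈ S := by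
      by_cases hD : R.D ∈ l
      · by_cases hD' : R.D ∈ l'
        · exact ⟨R.D, hD, hD', hS.D_mem⟩
        · obtain ⟨x, hx1, hx2⟩ := foot' (R := R) ⟨hl', hD'⟩ hl hD
          exact ⟨x, hx2, hx1, hS.line ⟨hl', hD'⟩ hu'.2 hv'.2 hu'.1 hv'.1 huv' hx1⟩
      · by_cases hD' : R.D ∈ l'
        · obtain ⟨x, hx1, hx2⟩ := foot' (R := R) ⟨hl, hD⟩ hl' hD'
          exact ⟨x, hx1, hx2, hS.line ⟨hl, hD⟩ hu.2 hv.2 hu.1 hv.1 huv hx1⟩
        · have h1 := hS.line ⟨hl, hD⟩ hu.2 hv.2 hu.1 hv.1 huv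
          have h2 := hS.line ⟨hl', hD'⟩ hu'.2 hv'.2 hu'.1 hv'.1 huv'
          obtain ⟨x, hx1, hx2⟩ := hS.meet l l' ⟨hl, hD⟩ ⟨hl', hD'⟩ h1 h2
          exact ⟨x, hx1, hx2, h1 hx1⟩
    obtain ⟨x, h1, h2, h3⟩ := hex
    refine ⟨x, ⟨⟨h1, h3⟩, ⟨h2, h3⟩⟩, ?_⟩
    rintro y ⟨⟨g1, _⟩, ⟨g2, _⟩⟩
    by_contra hyx
    exact hll (uniq hl hl' hyx g1 h1 g2 h2)
  · obtain ⟨a, b, O, ha, hb, hab, hOa, hOb, haS, hbS⟩ := hS.base
    obtain ⟨a1, ha1, ha1O, -⟩ := third ha.1 O O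
    obtain ⟨a2, ha2, ha2O, ha12⟩ := third ha.1 O a1
    obtain ⟨b1, hb1, hb1O, -⟩ := third hb.1 O O
    obtain ⟨b2, hb2, hb2O, hb12⟩ := third hb.1 O b1
    have nb : ∀ u ∈ a, u ≠ O → u ∉ b := fun u hu huO h => huO (meet_eq ha hb hab hOa hOb hu h)
    have na : ∀ u ∈ b, u ≠ O → u ∉ a := fun u hu huO h => huO (meet_eq ha hb hab hOa hOb h hu)
    have hA : ∀ t ∈ linesOf R S, a1 ∈ t → a2 ∈ t → b1 ∉ t ∧ b2 ∉ t := by
      rintro t ⟨l, hl, rfl, -⟩ ⟨h1, -⟩ ⟨h2, -⟩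
      have : l = a := uniq hl ha.1 ha12 h2 h1 ha2 ha1
      subst this
      exact ⟨fun h => na b1 hb1 hb1O h.1, fun h => na b2 hb2 hb2O h.1⟩
    have hB : ∀ t ∈ linesOf R S, b1 ∈ t → b2 ∈ t → a1 ∉ t ∧ a2 ∉ t := by
      rintro t ⟨l, hl, rfl, -⟩ ⟨h1, -⟩ ⟨h2, -⟩
      have : l = b := uniq hl hb.1 hb12 h2 h1 hb2 hb1
      subst this
      exact ⟨fun h => nb a1 ha1 ha1O h.1, fun h => nb a2 ha2 ha2O h.1⟩
    have e11 : a1 ≠ b1 := by rintro rfl; exact nb a1 ha1 ha1O hb1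
    have e12 : a1 ≠ b2 := by rintro rfl; exact nb a1 ha1 ha1O hb2
    have e21 : a2 ≠ b1 := by rintro rfl; exact nb a2 ha2 ha2O hb1
    have e22 : a2 ≠ b2 := by rintro rfl; exact nb a2 ha2 ha2O hb2
    refine ⟨![a1, a2, b1, b2], ?_, ?_, ?_⟩
    · intro i
      fin_cases i
      · exact haS ha1
      · exact haS ha2
      · exact hbS hb1
      · exact hbS hb2
    · intro i j hij
      fin_cases i <;> fin_cases j <;>
        first
          | rfl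
          | exact absurd hij e11 | exact absurd hij e12 | exact absurd hij e21
          | exact absurd hij e22 | exact absurd hij (Ne.symm e11)
          | exact absurd hij (Ne.symm e12) | exact absurd hij (Ne.symm e21)
          | exact absurd hij (Ne.symm e22) | exact absurd hij ha12
          | exact absurd hij (Ne.symm ha12) | exact absurd hij hb12
          | exact absurd hij (Ne.symm hb12)
    · rintro i j k hij hik hjk ⟨t, ht, h1, h2, h3⟩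
      have hA' := hA t ht
      have hB' := hB t ht
      fin_cases i <;> fin_cases j <;> fin_cases k <;>
        first
          | exact absurd rfl hij
          | exact absurd rfl hik
          | exact absurd rfl hjk
          | (simp at h1 h2 h3; tauto)

/-- Good sets are planes. -/
lemma good_plane {S : Set P} (hS : Good R S) : IsPlane R S := by
  refine ⟨good_subplane hS, ?_⟩
  intro T hT hST
  refine Set.Subset.antisymm ?_ hST
  intro z hz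
  by_contra hzS
  obtain ⟨a, b, O, ha, hb, hab, hOa, hOb, haS, hbS⟩ := hS.base
  have hzD : z ≠ R.D := by rintro rfl; exact hzS hS.D_mem
  obtain ⟨x, hxa, hxz, hxO⟩ := exists_off ha hzD (ne_D ha hOa)
  obtain ⟨c, hc, hxc, hzc⟩ := join_ord hxz
  have hxb : x ∉ b := by
    intro h
    have := meet_eq ha hb hab hOa hOb hxa h
    rw [this] at hxO
    exact hxO (F_refl _)
  have hxz' : x ≠ z := by rintro rfl; exact hxz (F_refl _)
  obtain ⟨b1, hb1, hb1O, -⟩ := third hb.1 O O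
  obtain ⟨y, ⟨⟨hyc, hyT⟩, ⟨hyb, -⟩⟩, -⟩ := hT.2.1 (c ∩ T)
    ⟨c, hc.1, rfl, x, ⟨hxc, hST (haS hxa)⟩, z, ⟨hzc, hz⟩, hxz'⟩ (b ∩ T)
    ⟨b, hb.1, rfl, b1, ⟨hb1, hST (hbS hb1)⟩, O, ⟨hOb, hST (hbS hOb)⟩, hb1O⟩ (by
      intro h
      have : x ∈ b ∩ T := by
        rw [← h]
        exact ⟨hxc, hST (haS hxa)⟩
      exact hxb this.1)
  have hxy : x ≠ y := by rintro rfl; exact hxb hyb
  exact hzS (hS.line hc (haS hxa) (hbS hyb) hxc hyc hxy hzc)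

/-- Planes are good. -/
lemma plane_good {S : Set P} (hS : IsPlane R S) : Good R S := by
  obtain ⟨hsub, hmax⟩ := hS
  obtain ⟨f, hfS, hinj, hgen⟩ := hsub.2.2
  -- no three on a line of the rectangle
  have gen : ∀ i j k, i ≠ j → i ≠ k → j ≠ k → ∀ l ∈ R.L, f i ∈ l → f j ∈ l → f k ∉ l := by
    intro i j k hij hik hjk l hl h1 h2 h3
    exact hgen i j k hij hik hjk ⟨l ∩ S, ⟨l, hl, rfl, f i, ⟨h1, hfS i⟩, f j, ⟨h2, hfS j⟩,
      fun h => hij (hinj h)⟩, ⟨h1, hfS i⟩, ⟨h2, hfS j⟩, ⟨h3, hfS k⟩⟩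
  have notboth : ∀ i j k, f i ≠ R.D → i ≠ j → i ≠ k → j ≠ k → F R (f i) (f j) →
      ¬ F R (f i) (f k) := by
    rintro i j k hiD hij hik hjk ⟨s, hs, hD, h1, h2⟩ h
    exact gen i j k hij hik hjk s hs h1 h2 (F_mem hs hD h1 hiD h)
  -- a good triple
  obtain ⟨i, j, k, l, hij, hik, hil, hjk, hjl, hkl, hFj, hFk⟩ : ∃ i j k l : Fin 4, i ≠ j ∧ i ≠ k ∧
      i ≠ l ∧ j ≠ k ∧ j ≠ l ∧ k ≠ l ∧ ¬ F R (f i) (f j) ∧ ¬ F R (f i) (f k) := by
    have main : ∀ i j k l : Fin 4, f i ≠ R.D → i ≠ j → i ≠ k → i ≠ l → j ≠ k → j ≠ l → k ≠ l →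
        ∃ i j k l : Fin 4, i ≠ j ∧ i ≠ k ∧
          i ≠ l ∧ j ≠ k ∧ j ≠ l ∧ k ≠ l ∧ ¬ F R (f i) (f j) ∧ ¬ F R (f i) (f k) := by
      intro i j k l hiD hij hik hil hjk hjl hkl
      by_cases h1 : F R (f i) (f j)
      · exact ⟨i, k, l, j, hik, hil, hij, hkl, Ne.symm hjk, Ne.symm hjl,
          notboth i j k hiD hij hik hjk h1, notboth i j l hiD hij hil hjl h1⟩
      · by_cases h2 : F R (f i) (f k)
        · exact ⟨i, j, l, k, hij, hil, hik, hjl, hjk, Ne.symm hkl, h1,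
            notboth i k l hiD hik hil hkl h2⟩
        · exact ⟨i, j, k, l, hij, hik, hil, hjk, hjl, hkl, h1, h2⟩
    by_cases h0 : f 0 = R.D
    · have h1 : f 1 ≠ R.D := fun h => absurd (hinj (h0.trans h.symm)) (by decide)
      exact main 1 0 2 3 h1 (by decide) (by decide) (by decide) (by decide) (by decide)
        (by decide)
    · exact main 0 1 2 3 h0 (by decide) (by decide) (by decide) (by decide) (by decide)
        (by decide)
  obtain ⟨a, ha, hOa, hpa⟩ := join_ord hFj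
  obtain ⟨b, hb, hOb, hqb⟩ := join_ord hFk
  have hqa : f k ∉ a := gen i j k hij hik hjk a ha.1 hOa hpa
  have hpb : f j ∉ b := gen i k j hik hij (Ne.symm hjk) b hb.1 hOb hqb
  have hab : a ≠ b := by rintro rfl; exact hqa hqb
  have hOp : f i ≠ f j := fun h => hij (hinj h)
  have hOq : f i ≠ f k := fun h => hik (hinj h)
  have hqr : f k ≠ f l := fun h => hkl (hinj h)
  -- the third point of `a`
  obtain ⟨m, hm, hqm, hrm⟩ := join (R := R) hqr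
  obtain ⟨t, ⟨⟨hta, htS⟩, ⟨htm, -⟩⟩, -⟩ := hsub.2.1 (a ∩ S)
    ⟨a, ha.1, rfl, f i, ⟨hOa, hfS i⟩, f j, ⟨hpa, hfS j⟩, hOp⟩ (m ∩ S)
    ⟨m, hm, rfl, f k, ⟨hqm, hfS k⟩, f l, ⟨hrm, hfS l⟩, hqr⟩ (by
      intro h
      have : f k ∈ a ∩ S := by rw [h]; exact ⟨hqm, hfS k⟩
      exact hqa this.1)
  have htO : t ≠ f i := by
    rintro rfl
    exact gen k l i hkl (Ne.symm hik) (Ne.symm hil) m hm hqm hrm htm
  have htp : t ≠ f j := by
    rintro rfl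
    exact gen k l j hkl (Ne.symm hjk) (Ne.symm hjl) m hm hqm hrm htm
  -- containment
  have hsubset : S ⊆ pl R a b := by
    intro z hz
    by_cases hzD : z = R.D
    · exact Or.inl hzD
    by_cases hza : z ∈ a
    · exact Or.inr (Or.inl hza)
    obtain ⟨x, hxa, hxS, hxO, hxz⟩ : ∃ x ∈ a, x ∈ S ∧ x ≠ f i ∧ ¬ F R x z := by
      by_cases h1 : F R (f j) z
      · refine ⟨t, hta, htS, htO, fun h2 => htp ?_⟩
        exact F_eq ha hta hpa (F_trans hzD h2 (F_symm h1))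
      · exact ⟨f j, hpa, hfS j, Ne.symm hOp, h1⟩
    obtain ⟨c, hc, hxc, hzc⟩ := join_ord hxz
    have hxz' : x ≠ z := by rintro rfl; exact hxz (F_refl _)
    have hxb : x ∉ b := fun h => hxO (meet_eq ha hb hab hOa hOb hxa h)
    obtain ⟨y, ⟨⟨hyc, hyS⟩, ⟨hyb, -⟩⟩, -⟩ := hsub.2.1 (c ∩ S)
      ⟨c, hc.1, rfl, x, ⟨hxc, hxS⟩, z, ⟨hzc, hz⟩, hxz'⟩ (b ∩ S)
      ⟨b, hb.1, rfl, f i, ⟨hOb, hfS i⟩, f k, ⟨hqb, hfS k⟩, hOq⟩ (by
        intro h
        have : x ∈ b ∩ S := by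
          rw [← h]
          exact ⟨hxc, hxS⟩
        exact hxb this.1)
    exact Or.inr (Or.inr (Or.inr ⟨c, hc, hzc, x, y, hxa, hxc, hyb, hyc, by
      rintro rfl; exact hxb hyb⟩))
  have hgood := good_pl ha hb hab hOa hOb
  have := hmax _ (good_subplane hgood) hsubset
  rw [← this]
  exact hgood

/-- An ordinary line of a good set through a given ordinary point. -/
lemma Good.through {S : Set P} (hS : Good R S) {x : P} (hx : x ∈ S) (hxD : x ≠ R.D) :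
    ∃ d, Ord R d ∧ x ∈ d ∧ d ⊆ S := by
  obtain ⟨a, b, O, ha, hb, hab, hOa, hOb, haS, hbS⟩ := hS.base
  obtain ⟨y, hya, hyx, -⟩ := exists_off ha hxD hxD
  obtain ⟨d, hd, hyd, hxd⟩ := join_ord hyx
  exact ⟨d, hd, hxd, hS.closed y (haS hya) x hx hyx d hd hyd hxd⟩

/-- The intersection of two planes with two common points of a special line. -/
lemma inter_sub {S T : Set P} (hS : Good R S) (hT : Good R T) (hST : S ≠ T) {s : Set P}
    (hs : s ∈ R.L) (hD : R.D ∈ s) {p p' : P} (hp : p ∈ s) (hp' : p' ∈ s) (hpp : p ≠ p')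
    (hpD : p ≠ R.D) (hpD' : p' ≠ R.D) (hpS : p ∈ S) (hpS' : p' ∈ S) (hpT : p ∈ T) (hpT' : p' ∈ T)
    {q : P} (hqS : q ∈ S) (hqT : q ∈ T) : q ∈ s := by
  by_contra hq
  have h1 : ¬ F R p q := fun h => hq (F_mem hs hD hp hpD h)
  have h2 : ¬ F R p' q := fun h => hq (F_mem hs hD hp' hpD' h)
  obtain ⟨a, ha, hpa, hqa⟩ := join_ord h1
  obtain ⟨b, hb, hpb, hqb⟩ := join_ord h2
  have hab : a ≠ b := by
    rintro rfl
    exact hpp (F_eq ha hpa hpb ⟨s, hs, hD, hp, hp'⟩)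
  exact hST (good_eq hS hT ha hb hab hqa hqb (hS.closed p hpS q hqS h1 a ha hpa hqa)
    (hS.closed p' hpS' q hqS h2 b hb hpb hqb) (hT.closed p hpT q hqT h1 a ha hpa hqa)
    (hT.closed p' hpT' q hqT h2 b hb hpb hqb))

/-- The key lemma. -/
lemma key {S T : Set P} (hS : Good R S) (hT : Good R T) (hST : S ≠ T) {s : Set P}
    (hs : s ∈ R.L) (hD : R.D ∈ s) {p p' : P} (hp : p ∈ s) (hp' : p' ∈ s) (hpp : p ≠ p')
    (hpD : p ≠ R.D) (hpD' : p' ≠ R.D) (hpS : p ∈ S) (hpS' : p' ∈ S) (hpT : p ∈ T) (hpT' : p' ∈ T)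
    {x : P} (hxs : x ∈ s) (hxS : x ∈ S) : x ∈ T := by
  by_cases hxD : x = R.D
  · rw [hxD]; exact hT.D_mem
  by_cases hxp : x = p
  · rw [hxp]; exact hpT
  by_cases hxp' : x = p'
  · rw [hxp']; exact hpT'
  have hI : ∀ q ∈ S, q ∈ T → q ∈ s := fun q h1 h2 =>
    inter_sub hS hT hST hs hD hp hp' hpp hpD hpD' hpS hpS' hpT hpT' h1 h2
  -- points off `s`
  have off : ∀ {d : Set P} {u v : P}, Ord R d → u ∈ d → u ∈ s → v ∈ d → v ≠ u → v ∉ s := by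
    intro d u v hd hu hus hv hvu hvs
    exact hvu (F_eq hd hv hu ⟨s, hs, hD, hvs, hus⟩)
  obtain ⟨a1, ha1, hpa1, ha1S⟩ := hS.through hpS hpD
  obtain ⟨a2, ha2, hpa2, ha2T⟩ := hT.through hpT hpD
  obtain ⟨b1, hb1, hxb1, hb1S⟩ := hS.through hxS hxD
  -- `c = a1 ∩ b1`
  obtain ⟨c, hca1, hcb1⟩ := hS.meet a1 b1 ha1 hb1 ha1S hb1S
  have hpb1 : p ∉ b1 := fun h => off hb1 hxb1 hxs h (Ne.symm hxp) hp
  have hpb1' : p' ∉ b1 := fun h => off hb1 hxb1 hxs h (Ne.symm hxp') hp'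
  have hcp : c ≠ p := by rintro rfl; exact hpb1 hcb1
  have hcs : c ∉ s := off ha1 hpa1 hp hca1 hcp
  have hcD := ne_D ha1 hca1
  have hcx : c ≠ x := by rintro rfl; exact hcs hxs
  -- four points of `a1`
  obtain ⟨q, hqb1, hqx, hqc⟩ := third hb1.1 x c
  have hqs : q ∉ s := off hb1 hxb1 hxs hqb1 hqx
  have hqD := ne_D hb1 hqb1
  have hqp' : ¬ F R p' q := fun h => hqs (F_mem hs hD hp' hpD' h)
  obtain ⟨g, hg, hp'g, hqg⟩ := join_ord hqp'
  have hgS := hS.closed p' hpS' q (hb1S hqb1) hqp' g hg hp'g hqg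
  obtain ⟨u, hug, hua1⟩ := hS.meet g a1 hg ha1 hgS ha1S
  obtain ⟨u', hu'a1, hu'q⟩ := foot ha1 q
  have hqa1 : q ∉ a1 := by
    intro h
    have : a1 = b1 := uniq ha1.1 hb1.1 hqc h hca1 hqb1 hcb1
    exact hpb1 (this ▸ hpa1)
  have hup : u ≠ p := by
    rintro rfl
    exact hpp (F_eq hg hug hp'g ⟨s, hs, hD, hp, hp'⟩)
  have huc : u ≠ c := by
    rintro rfl
    have : g = b1 := uniq hg.1 hb1.1 hqc hqg hug hqb1 hcb1
    exact hpb1' (this ▸ hp'g)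
  have hu'p : u' ≠ p := by
    rintro rfl
    exact hqs (F_mem hs hD hp hpD (F_symm hu'q))
  have hu'c : u' ≠ c := by
    rintro rfl
    exact hqc (F_eq hb1 hqb1 hcb1 hu'q)
  have huu' : u' ≠ u := by
    rintro rfl
    have := F_eq hg hqg hug hu'q
    exact hqa1 (this ▸ hua1)
  -- the plane `σ`
  have ha12 : a1 ≠ a2 := by
    rintro rfl
    exact hcs (hI c (ha1S hca1) (ha2T hca1))
  have hσ := good_pl ha1 ha2 ha12 hpa1 hpa2
  set σ := pl R a1 a2 with hσd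
  have ha1σ : a1 ⊆ σ := fun t ht => Or.inr (Or.inl ht)
  have ha2σ : a2 ⊆ σ := fun t ht => Or.inr (Or.inr (Or.inl ht))
  have hσT : σ ≠ T := by
    intro h
    exact hcs (hI c (ha1S hca1) (h ▸ ha1σ hca1))
  have hσS : σ ≠ S := by
    intro h
    obtain ⟨w, hw, hwp, -⟩ := third ha2.1 p p
    exact off ha2 hpa2 hp hw hwp (hI w (h ▸ ha2σ hw) (ha2T hw))
  -- the point `O`
  obtain ⟨v, hva2, hvu'⟩ := foot ha2 u'
  have hu'D := ne_D ha1 hu'a1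
  have hvD := ne_D ha2 hva2
  have huv : ¬ F R u v := by
    intro h
    exact huu' (F_eq ha1 hu'a1 hua1 (F_trans hvD hvu' (F_symm h)))
  obtain ⟨o, ho, huo, hvo⟩ := join_ord huv
  have hoσ := hσ.closed u (ha1σ hua1) v (ha2σ hva2) huv o ho huo hvo
  obtain ⟨O, hOo, hcO⟩ := foot ho c
  have hOσ : O ∈ σ := hoσ hOo
  have hOD := ne_D ho hOo
  have hus : u ∉ s := off ha1 hpa1 hp hua1 hup
  have hvp : v ≠ p := by
    rintro rfl
    exact hu'p (F_eq ha1 hu'a1 hpa1 hvu')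
  have hOa1 : O ∉ a1 := by
    intro h
    have hOc := F_eq ha1 hca1 h hcO
    rw [← hOc] at hOo
    have : o = a1 := uniq ho.1 ha1.1 huc huo hOo hua1 hca1
    rw [this] at hvo
    exact hvp (meet_eq ha1 ha2 ha12 hpa1 hpa2 hvo hva2)
  have hOa2 : O ∉ a2 := by
    intro h
    have hOv : O ≠ v := by
      rintro rfl
      exact hu'c (F_eq ha1 hu'a1 hca1 (F_trans hOD hvu' (F_symm hcO)))
    have : o = a2 := uniq ho.1 ha2.1 hOv hOo hvo h hva2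
    rw [this] at huo
    exact hup (meet_eq ha1 ha2 ha12 hpa1 hpa2 hua1 huo)
  have hOs : O ∉ s := fun h => hcs (F_mem hs hD h hOD (F_symm hcO))
  have hFpO : ¬ F R p O := fun h => hOs (F_mem hs hD hp hpD h)
  have hFp'O : ¬ F R p' O := fun h => hOs (F_mem hs hD hp' hpD' h)
  -- `O` is in neither plane
  have hOS : O ∉ S := by
    intro h
    obtain ⟨e, he, hpe, hOe⟩ := join_ord hFpO
    have h1 := hS.closed p hpS O h hFpO e he hpe hOe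
    have h2 := hσ.closed p (ha1σ hpa1) O hOσ hFpO e he hpe hOe
    exact hσS (good_eq hσ hS ha1 he (by rintro rfl; exact hOa1 hOe) hpa1 hpe ha1σ h2 ha1S h1)
  have hOT : O ∉ T := by
    intro h
    obtain ⟨e, he, hpe, hOe⟩ := join_ord hFpO
    have h1 := hT.closed p hpT O h hFpO e he hpe hOe
    have h2 := hσ.closed p (ha1σ hpa1) O hOσ hFpO e he hpe hOe
    exact hσT (good_eq hσ hT ha2 he (by rintro rfl; exact hOa2 hOe) hpa2 hpe ha2σ h2 ha2T h1)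
  -- the perspectivity
  have persp : ∀ r ∈ b1, r ≠ x → r ≠ c → ∀ m, Ord R m → O ∈ m → r ∈ m → p' ∉ m →
      ∃ r2 ∈ m, r2 ∈ T ∧ r2 ∉ s := by
    intro r hr hrx hrc m hm hOm hrm hp'm
    have hrs : r ∉ s := off hb1 hxb1 hxs hr hrx
    have hF : ¬ F R p' r := fun h => hrs (F_mem hs hD hp' hpD' h)
    obtain ⟨k, hk, hp'k, hrk⟩ := join_ord hF
    have hkS := hS.closed p' hpS' r (hb1S hr) hF k hk hp'k hrk
    obtain ⟨t1, ht1k, ht1a⟩ := hS.meet k a1 hk ha1 hkS ha1S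
    have ht1c : t1 ≠ c := by
      rintro rfl
      have : k = b1 := uniq hk.1 hb1.1 hrc hrk ht1k hr hcb1
      exact hpb1' (this ▸ hp'k)
    have ht1p : t1 ≠ p := by
      rintro rfl
      exact hpp (F_eq hk ht1k hp'k ⟨s, hs, hD, hp, hp'⟩)
    have ht1O : ¬ F R t1 O := by
      intro h
      exact ht1c (F_eq ha1 ht1a hca1 (F_trans hOD h (F_symm hcO)))
    have hkm : k ≠ m := by rintro rfl; exact hp'm hp'k
    -- the plane `τ`
    have hτ := good_pl hk hm hkm hrk hrm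
    set τ := pl R k m with hτd
    have hkτ : k ⊆ τ := fun t ht => Or.inr (Or.inl ht)
    have hmτ : m ⊆ τ := fun t ht => Or.inr (Or.inr (Or.inl ht))
    obtain ⟨n, hn, ht1n, hOn⟩ := join_ord ht1O
    have hnτ := hτ.closed t1 (hkτ ht1k) O (hmτ hOm) ht1O n hn ht1n hOn
    have hnσ := hσ.closed t1 (ha1σ ht1a) O hOσ ht1O n hn ht1n hOn
    obtain ⟨t2, ht2n, ht2a⟩ := hσ.meet n a2 hn ha2 hnσ ha2σ
    have ht2p : t2 ≠ p := by
      rintro rfl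
      have : n = a1 := uniq hn.1 ha1.1 ht1p ht1n ht2n ht1a hpa1
      exact hOa1 (this ▸ hOn)
    have ht2s : t2 ∉ s := off ha2 hpa2 hp ht2a ht2p
    have hF2 : ¬ F R p' t2 := fun h => ht2s (F_mem hs hD hp' hpD' h)
    obtain ⟨k2, hk2, hp'k2, ht2k2⟩ := join_ord hF2
    have hk2T := hT.closed p' hpT' t2 (ha2T ht2a) hF2 k2 hk2 hp'k2 ht2k2
    have hk2τ := hτ.closed p' (hkτ hp'k) t2 (hnτ ht2n) hF2 k2 hk2 hp'k2 ht2k2
    obtain ⟨r2, hr2k2, hr2m⟩ := hτ.meet k2 m hk2 hm hk2τ hmτ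
    refine ⟨r2, hr2m, hk2T hr2k2, ?_⟩
    intro hr2s
    have := F_eq hk2 hr2k2 hp'k2 ⟨s, hs, hD, hr2s, hp'⟩
    exact hp'm (this ▸ hr2m)
  -- points of `b1` are not on the special line of `O`
  have hFO : ∀ r ∈ b1, r ≠ c → ¬ F R r O := by
    intro r hr hrc h
    exact hrc (F_eq hb1 hr hcb1 (F_trans hOD h (F_symm hcO)))
  -- choose `r1`
  obtain ⟨r1, hr1, hr1x, hr1c, m1, hm1, hOm1, hr1m1, hp'm1⟩ : ∃ r ∈ b1, r ≠ x ∧ r ≠ c ∧
      ∃ m, Ord R m ∧ O ∈ m ∧ r ∈ m ∧ p' ∉ m := by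
    obtain ⟨m, hm, hqm, hOm⟩ := join_ord (hFO q hqb1 hqc)
    by_cases hp'm : p' ∈ m
    · -- another point of `b1`
      obtain ⟨w, hwb1, hwu⟩ : ∃ w ∈ b1, ¬ (w = x ∨ w = c ∨ w = q) := by
        obtain ⟨w, hw, hwF⟩ := foot hb1 u
        have huD := ne_D ha1 hua1
        by_contra hno
        push Not at hno
        rcases hno w hw with h | h | h
        · rw [h] at hwF
          exact hus (F_mem hs hD hxs hxD (F_symm hwF))
        · rw [h] at hwF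
          exact huc (F_eq ha1 hua1 hca1 hwF)
        · rw [h] at hwF
          have := F_eq hg hug hqg hwF
          exact hqa1 (this ▸ hua1)
      push Not at hwu
      obtain ⟨m', hm', hwm', hOm'⟩ := join_ord (hFO w hwb1 hwu.2.1)
      refine ⟨w, hwb1, hwu.1, hwu.2.1, m', hm', hOm', hwm', ?_⟩
      intro hp'm'
      have hOp' : O ≠ p' := by rintro rfl; exact hOs hp'
      have h1 : m' = m := uniq hm'.1 hm.1 hOp' hOm' hp'm' hOm hp'm
      rw [h1] at hwm'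
      have h2 : m = b1 := uniq hm.1 hb1.1 hwu.2.2 hwm' hqm hwb1 hqb1
      exact hOS (hb1S (h2 ▸ hOm))
    · exact ⟨q, hqb1, hqx, hqc, m, hm, hOm, hqm, hp'm⟩
  have hr1s : r1 ∉ s := off hb1 hxb1 hxs hr1 hr1x
  obtain ⟨r2, hr2m1, hr2T, hr2s⟩ := persp r1 hr1 hr1x hr1c m1 hm1 hOm1 hr1m1 hp'm1
  have hr12 : r1 ≠ r2 := by rintro rfl; exact hr1s (hI _ (hb1S hr1) hr2T)
  have hr2O : r2 ≠ O := by rintro rfl; exact hOT hr2T
  have hr2D := ne_D hm1 hr2m1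
  -- the second point
  obtain ⟨y1, hy1, hy1F⟩ := foot hb1 r2
  have hy1D := ne_D hb1 hy1
  have hy1x : y1 ≠ x := by
    rintro rfl
    exact hr2s (F_mem hs hD hxs hxD (F_symm hy1F))
  have hy1s : y1 ∉ s := off hb1 hxb1 hxs hy1 hy1x
  have hy1c : y1 ≠ c := by
    rintro rfl
    exact hr2O (F_eq hm1 hr2m1 hOm1 (F_trans hy1D hy1F hcO))
  have hy1r1 : y1 ≠ r1 := by
    rintro rfl
    exact hr12 (F_eq hm1 hr1m1 hr2m1 (F_symm hy1F))
  obtain ⟨m2, hm2, hy1m2, hOm2⟩ := join_ord (hFO y1 hy1 hy1c)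
  obtain ⟨y2, hy2m2, hy2T⟩ : ∃ y ∈ m2, y ∈ T := by
    by_cases h : p' ∈ m2
    · exact ⟨p', h, hpT'⟩
    · obtain ⟨y2, h1, h2, -⟩ := persp y1 hy1 hy1x hy1c m2 hm2 hOm2 hy1m2 h
      exact ⟨y2, h1, h2⟩
  have hy12 : y1 ≠ y2 := by rintro rfl; exact hy1s (hI _ (hb1S hy1) hy2T)
  have hFry : ¬ F R r2 y2 := by
    intro h
    exact hy12 (F_eq hm2 hy1m2 hy2m2 (F_trans hr2D (F_symm hy1F) h))
  obtain ⟨b2, hb2, hr2b2, hy2b2⟩ := join_ord hFry
  have hb2T := hT.closed r2 hr2T y2 hy2T hFry b2 hb2 hr2b2 hy2b2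
  -- the plane `ρ`
  have hbm : b1 ≠ m1 := by
    rintro rfl
    exact hOS (hb1S hOm1)
  have hρ := good_pl hb1 hm1 hbm hr1 hr1m1
  have hb1ρ : b1 ⊆ pl R b1 m1 := fun t ht => Or.inr (Or.inl ht)
  have hm1ρ : m1 ⊆ pl R b1 m1 := fun t ht => Or.inr (Or.inr (Or.inl ht))
  have hm2ρ := hρ.closed y1 (hb1ρ hy1) O (hm1ρ hOm1) (hFO y1 hy1 hy1c) m2 hm2 hy1m2 hOm2
  have hb2ρ := hρ.closed r2 (hm1ρ hr2m1) y2 (hm2ρ hy2m2) hFry b2 hb2 hr2b2 hy2b2
  obtain ⟨w, hwb1, hwb2⟩ := hρ.meet b1 b2 hb1 hb2 hb1ρ hb2ρ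
  have hws := hI w (hb1S hwb1) (hb2T hwb2)
  have hwx : w = x := F_eq hb1 hwb1 hxb1 ⟨s, hs, hD, hws, hxs⟩
  rw [← hwx]
  exact hb2T hwb2

/-- Two ordinary points of a plane on a given special line. -/
lemma two_points {S : Set P} (hS : Good R S) {s : Set P} (hs : s ∈ R.L) (hD : R.D ∈ s) :
    ∃ p p', p ∈ s ∧ p' ∈ s ∧ p ≠ p' ∧ p ≠ R.D ∧ p' ≠ R.D ∧ p ∈ S ∧ p' ∈ S := by
  obtain ⟨a, b, O, ha, hb, hab, hOa, hOb, haS, hbS⟩ := hS.base
  by_cases hOs : O ∈ s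
  · obtain ⟨q, hqa, hqO, -⟩ := third ha.1 O O
    obtain ⟨q2, hq2a, hq2O, hq2q⟩ := third ha.1 O q
    obtain ⟨q', hq'b, hq'F⟩ := foot hb q2
    have hq'O : q' ≠ O := by
      rintro rfl
      exact hq2O (F_eq ha hq2a hOa hq'F)
    have hq'D := ne_D hb hq'b
    have hF : ¬ F R q q' := by
      intro h
      exact hq2q (F_eq ha hq2a hqa (F_trans hq'D hq'F (F_symm h)))
    obtain ⟨c, hc, hqc, hq'c⟩ := join_ord hF
    have hcS := hS.closed q (haS hqa) q' (hbS hq'b) hF c hc hqc hq'c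
    obtain ⟨p', hp'c, hp's⟩ := foot' hc hs hD
    refine ⟨O, p', hOs, hp's, ?_, ne_D ha hOa, ne_D hc hp'c, haS hOa, hcS hp'c⟩
    rintro rfl
    have h1 : c = a := uniq hc.1 ha.1 hqO hqc hp'c hqa hOa
    rw [h1] at hq'c
    exact hq'O (meet_eq ha hb hab hOa hOb hq'c hq'b)
  · obtain ⟨p, hpa, hps⟩ := foot' ha hs hD
    obtain ⟨p', hpb, hps'⟩ := foot' hb hs hD
    refine ⟨p, p', hps, hps', ?_, ne_D ha hpa, ne_D hb hpb, haS hpa, hbS hpb⟩
    rintro rfl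
    exact hOs (meet_eq ha hb hab hOa hOb hpa hpb ▸ hps)

lemma linesOf_univ : linesOf R Set.univ = R.L := by
  ext t
  constructor
  · rintro ⟨l, hl, rfl, -⟩
    rw [Set.inter_univ]
    exact hl
  · intro ht
    obtain ⟨x, hx, y, hy, -, -, h1, -⟩ := R.A3 t ht
    exact ⟨t, ht, (Set.inter_univ t).symm, x, hx, y, hy, h1⟩

/-- A point outside a plane and a special line. -/
lemma exists_outside (hR : Nontriv R) {S : Set P} (hS : Good R S) {s : Set P} (hs : s ∈ R.L)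
    (hD : R.D ∈ s) : ∃ q, q ∉ S ∧ q ∉ s := by
  have h1 : ∃ q, q ∉ S := by
    by_contra hno
    push Not at hno
    apply hR
    have : S = Set.univ := Set.eq_univ_of_forall hno
    have h2 := good_subplane hS
    rw [this, IsSubplane, linesOf_univ] at h2
    exact h2
  obtain ⟨q, hq⟩ := h1
  by_cases hqs : q ∈ s
  · obtain ⟨a, b, O, ha, hb, hab, hOa, hOb, haS, hbS⟩ := hS.base
    have hqD : q ≠ R.D := by rintro rfl; exact hq hS.D_mem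
    obtain ⟨r, hra, hrq, -⟩ := exists_off ha hqD hqD
    obtain ⟨l, hl, hrl, hql⟩ := join_ord hrq
    obtain ⟨t, htl, htr, htq⟩ := third hl.1 r q
    refine ⟨t, fun htS => ?_, fun hts => ?_⟩
    · exact hq (hS.line hl htS (haS hra) htl hrl htr hql)
    · exact htq (F_eq hl htl hql ⟨s, hs, hD, hts, hqs⟩)
  · exact ⟨q, hq, hqs⟩

end theory

/-- Planes with two common ordinary points on a special line meet it in the same points. -/
theorem sections_eq {P : Type} (R : ProjRect P) {S T : Set P} (hS : IsPlane R S)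
    (hT : IsPlane R T) {s : Set P} (hs : s ∈ R.L) (hD : R.D ∈ s) {p p' : P} (hp : p ∈ s)
    (hp' : p' ∈ s) (hpp : p ≠ p') (hpD : p ≠ R.D) (hpD' : p' ≠ R.D) (h1 : p ∈ S) (h2 : p ∈ T)
    (h3 : p' ∈ S) (h4 : p' ∈ T) : s ∩ S = s ∩ T := by
  by_cases hST : S = T
  · rw [hST]
  have gS := plane_good hS
  have gT := plane_good hT
  apply Set.Subset.antisymm
  · rintro x ⟨hxs, hxS⟩
    exact ⟨hxs, key gS gT hST hs hD hp hp' hpp hpD hpD' h1 h3 h2 h4 hxs hxS⟩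
  · rintro x ⟨hxs, hxT⟩
    exact ⟨hxs, key gT gS (Ne.symm hST) hs hD hp hp' hpp hpD hpD' h2 h4 h1 h3 hxs hxT⟩

/-- **Q1 of MP_81f70c_co**: in a nontrivial projective rectangle, every section of a plane by a
special line is a line of another plane. -/
theorem result (P : Type) (R : ProjRect P) (hR : Nontriv R) (S : Set P) (hS : IsPlane R S)
    (s : Set P) (hs : s ∈ R.L) (hD : R.D ∈ s) :
    ∃ S' : Set P, IsPlane R S' ∧ S' ≠ S ∧ s ∩ S ∈ linesOf R S' ∧ s ∩ S' = s ∩ S := by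
  have gS := plane_good hS
  obtain ⟨p, p', hp, hp', hpp, hpD, hpD', h1, h3⟩ := two_points gS hs hD
  obtain ⟨q, hqS, hqs⟩ := exists_outside hR gS hs hD
  have hF1 : ¬ F R p q := fun h => hqs (F_mem hs hD hp hpD h)
  have hF2 : ¬ F R p' q := fun h => hqs (F_mem hs hD hp' hpD' h)
  obtain ⟨a, ha, hpa, hqa⟩ := join_ord hF1
  obtain ⟨b, hb, hpb, hqb⟩ := join_ord hF2
  have hab : a ≠ b := by
    rintro rfl
    exact hpp (F_eq ha hpa hpb ⟨s, hs, hD, hp, hp'⟩)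
  have hT := good_plane (good_pl ha hb hab hqa hqb)
  have hpT : p ∈ pl R a b := Or.inr (Or.inl hpa)
  have hpT' : p' ∈ pl R a b := Or.inr (Or.inr (Or.inl hpb))
  have heq := sections_eq R hT hS hs hD hp hp' hpp hpD hpD' hpT h1 hpT' h3
  refine ⟨pl R a b, hT, ?_, ?_, heq⟩
  · intro h
    exact hqS (h ▸ Or.inr (Or.inl hqa))
  · rw [← heq]
    exact ⟨s, hs, rfl, p, ⟨hp, hpT⟩, p', ⟨hp', hpT'⟩, hpp⟩

end Pool.Agent.Results.MP_81f70c_co.SharedSections
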